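import Mathlib

set_option autoImplicit false

open Polynomial Filter Topology

namespace Pool.Agent.Results.MP_f0d684_an.SmallAlphaFails

/-- The closed sector `S(θ) = {z : |arg z| ≤ θ or z = 0}`. -/
def sector (θ : ℝ) : Set ℂ := {z | |z.arg| ≤ θ ∨ z = 0}

/-- The diagonal operator `z^k ↦ γ_k z^k`. -/
noncomputable def diagOp (γ : ℕ → ℝ) (f : ℝ[X]) : ℝ[X] :=
  ∑ k ∈ Finset.range (f.natDegree + 1), C (γ k * f.coeff k) * X ^ k

/-- The diagonal operator with the sequence `γ` is a zero-sector reducing operator. -/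
def ZeroSectorReducing (γ : ℕ → ℝ) : Prop :=
  ∀ θ : ℝ, 0 < θ → θ < Real.pi / 2 → ∃ φ : ℝ, 0 ≤ φ ∧ φ < θ ∧
    ∀ f : ℝ[X], f ≠ 0 → (∀ z : ℂ, aeval z f = 0 → z ∈ sector θ) →
      ∀ z : ℂ, aeval z (diagOp γ f) = 0 → z ∈ sector φ

/-- a real cubic all of whose complex zeros are real has non-positive `G^2 + 4 H^3` -/
lemma disc_nonpos (a b c d : ℝ) (ha : a ≠ 0)
    (h : ∀ z : ℂ, (a:ℂ) * z ^ 3 - 3 * b * z ^ 2 + 3 * c * z - d = 0 → z.im = 0) :
    (-a^2*d + 3*a*b*c - 2*b^3)^2 + 4 * (a*c - b^2)^3 ≤ 0 := by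
  set P : ℂ[X] := C (a:ℂ) * X ^ 3 + C (-3 * b : ℂ) * X ^ 2 + C (3 * c : ℂ) * X + C (-d : ℂ) with hP
  have haC : (a:ℂ) ≠ 0 := by exact_mod_cast ha
  have hdeg : P.natDegree = 3 := natDegree_cubic haC
  have hlc : P.leadingCoeff = a := leadingCoeff_cubic haC
  have hsp : P.Splits := IsAlgClosed.splits _
  have hcard : P.roots.card = 3 := by
    rw [← hdeg]
    exact hsp.natDegree_eq_card_roots.symm
  obtain ⟨x, y, w, hxyw⟩ := Multiset.card_eq_three.mp hcard
  have hP0 : P ≠ 0 := by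
    intro h0; rw [h0] at hdeg; simp at hdeg
  have hreal : ∀ z ∈ P.roots, z.im = 0 := by
    intro z hz
    rw [mem_roots hP0, IsRoot.def] at hz
    apply h
    rw [hP] at hz
    simp only [eval_add, eval_mul, eval_C, eval_pow, eval_X] at hz
    linear_combination hz
  have hx : x.im = 0 := hreal x (by rw [hxyw]; simp)
  have hy : y.im = 0 := hreal y (by rw [hxyw]; simp)
  have hw : w.im = 0 := hreal w (by rw [hxyw]; simp)
  obtain ⟨x', rfl⟩ : ∃ x' : ℝ, x = x' := ⟨x.re, Complex.ext rfl (by simp [hx])⟩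
  obtain ⟨y', rfl⟩ : ∃ x' : ℝ, y = x' := ⟨y.re, Complex.ext rfl (by simp [hy])⟩
  obtain ⟨w', rfl⟩ : ∃ x' : ℝ, w = x' := ⟨w.re, Complex.ext rfl (by simp [hw])⟩
  have hev : ∀ t : ℂ, (a:ℂ) * t ^ 3 - 3 * b * t ^ 2 + 3 * c * t - d
      = a * ((t - x') * ((t - y') * (t - w'))) := by
    intro t
    have h1 := hsp.eval_eq_prod_roots t
    rw [hxyw, hlc] at h1
    simp only [Multiset.insert_eq_cons, Multiset.map_cons, Multiset.map_singleton,
      Multiset.prod_cons, Multiset.prod_singleton] at h1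
    rw [← h1, hP]
    simp only [eval_add, eval_mul, eval_C, eval_pow, eval_X]
    ring
  have hevr : ∀ t : ℝ, a * t ^ 3 - 3 * b * t ^ 2 + 3 * c * t - d
      = a * ((t - x') * ((t - y') * (t - w'))) := by
    intro t
    have := hev t
    exact_mod_cast this
  have e0 := hevr 0
  have e1 := hevr 1
  have e2 := hevr (-1)
  have hb : 3 * b = a * (x' + y' + w') := by linear_combination (-1/2) * e1 - (1/2) * e2 + e0
  have hd : d = a * (x' * y' * w') := by linear_combination (-1) * e0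
  have hc : 3 * c = a * (x' * y' + y' * w' + w' * x') := by
    linear_combination (1/2) * e1 - (1/2) * e2
  have hb' : b = a * (x' + y' + w') / 3 := by linarith
  have hc' : c = a * (x' * y' + y' * w' + w' * x') / 3 := by linarith
  have hid : (-a^2*d + 3*a*b*c - 2*b^3)^2 + 4 * (a*c - b^2)^3
      = - (a^6 / 27) * ((x' - y') * (y' - w') * (w' - x'))^2 := by
    rw [hb', hc', hd]; ring
  rw [hid]
  have : 0 ≤ a^6 / 27 * ((x' - y') * (y' - w') * (w' - x'))^2 := by positivity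
  linarith

lemma third_diff_pos (p : ℝ) (hp : 2 < p) : 0 < (3:ℝ) ^ p - 3 * 2 ^ p + 3 := by
  set t := p - 2 with ht
  have ht0 : 0 < t := by linarith
  have h1 : (3:ℝ) ^ p = 9 * 3 ^ t := by
    have : p = 2 + t := by rw [ht]; ring
    rw [this, Real.rpow_add (by norm_num)]
    norm_num
  have h2 : (2:ℝ) ^ p = 4 * 2 ^ t := by
    have : p = 2 + t := by rw [ht]; ring
    rw [this, Real.rpow_add (by norm_num)]
    norm_num
  -- 3·3^t + 1 > 4·2^t
  have h3 : ((3:ℝ) ^ t) ^ (3/4 : ℝ) * (1:ℝ) ^ (1/4 : ℝ) ≤ (3/4) * 3 ^ t + (1/4) * 1 := by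
    exact Real.geom_mean_le_arith_mean2_weighted (by norm_num) (by norm_num) (by positivity)
      (by norm_num) (by norm_num)
  rw [Real.one_rpow, mul_one, ← Real.rpow_mul (by norm_num)] at h3
  have h4 : (2:ℝ) ^ t < 3 ^ (t * (3/4)) := by
    rw [mul_comm, Real.rpow_mul (by norm_num)]
    apply Real.rpow_lt_rpow (by norm_num) _ ht0
    have h5 : ((3:ℝ) ^ (3/4 : ℝ)) ^ 4 = 27 := by
      rw [← Real.rpow_natCast, ← Real.rpow_mul (by norm_num)]
      norm_num
    by_contra hcon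
    push Not at hcon
    have h6 : ((3:ℝ) ^ (3/4 : ℝ)) ^ 4 ≤ 2 ^ 4 := by gcongr
    rw [h5] at h6
    norm_num at h6
  rw [h1, h2]
  linarith

lemma exp_lim (c : ℝ) : Tendsto (fun α : ℝ => (Real.exp (-(α * c)) - 1) / α) (𝓝[>] 0) (𝓝 (-c)) := by
  have h : HasDerivAt (fun α : ℝ => Real.exp (-(α * c))) (-c) 0 := by
    have h1 : HasDerivAt (fun α : ℝ => α * (-c)) (-c) 0 := by
      simpa using ((hasDerivAt_id (0:ℝ)).mul_const (-c))
    have h2 := h1.exp
    simpa using h2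
  rw [hasDerivAt_iff_tendsto_slope] at h
  have h2 := h.mono_left (nhdsWithin_mono (0:ℝ) (s := Set.Ioi 0) (t := {0}ᶜ) (by
    intro x hx; simpa using (ne_of_gt hx)))
  refine h2.congr' ?_
  filter_upwards [self_mem_nhdsWithin] with x hx
  simp [slope_def_field]

lemma key_pos (u v : ℝ) (hne : u - 3 * v + 3 ≠ 0) : ∀ᶠ α : ℝ in 𝓝[>] 0,
    0 < (-(Real.exp (-(α * u)))^2*1 + 3*Real.exp (-(α * u))*Real.exp (-(α * v))*
        Real.exp (-(α * 1)) - 2*(Real.exp (-(α * v)))^3)^2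
        + 4 * (Real.exp (-(α * u))*Real.exp (-(α * 1)) - (Real.exp (-(α * v)))^2)^3 := by
  have ha := exp_lim u
  have hb := exp_lim v
  have hc := exp_lim 1
  have hα : Tendsto (fun α : ℝ => α) (𝓝[>] 0) (𝓝 0) := tendsto_id.mono_left nhdsWithin_le_nhds
  set A : ℝ → ℝ := fun α => (Real.exp (-(α * u)) - 1) / α with hA
  set B : ℝ → ℝ := fun α => (Real.exp (-(α * v)) - 1) / α with hB
  set Cc : ℝ → ℝ := fun α => (Real.exp (-(α * 1)) - 1) / α with hC
  have hG : Tendsto (fun α : ℝ => -2 * A α - α * A α ^ 2 + 3 * (A α + B α + Cc α +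
      α * (A α * B α + B α * Cc α + A α * Cc α) + α ^ 2 * A α * B α * Cc α)
      - 2 * (3 * B α + 3 * α * B α ^ 2 + α ^ 2 * B α ^ 3)) (𝓝[>] 0)
      (𝓝 (-2 * (-u) - 0 * (-u) ^ 2 + 3 * ((-u) + (-v) + -1 +
      0 * ((-u) * (-v) + (-v) * -1 + (-u) * -1) + 0 ^ 2 * (-u) * (-v) * -1)
      - 2 * (3 * (-v) + 3 * 0 * (-v) ^ 2 + 0 ^ 2 * (-v) ^ 3))) := by
    apply Tendsto.sub
    · apply Tendsto.add
      · exact (ha.const_mul (-2)).sub (hα.mul (ha.pow 2))
      · apply Tendsto.const_mul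
        apply Tendsto.add
        · apply Tendsto.add
          · exact (ha.add hb).add hc
          · exact hα.mul (((ha.mul hb).add (hb.mul hc)).add (ha.mul hc))
        · exact (((hα.pow 2).mul ha).mul hb).mul hc
    · apply Tendsto.const_mul
      exact ((hb.const_mul 3).add ((hα.const_mul 3).mul (hb.pow 2))).add
        ((hα.pow 2).mul (hb.pow 3))
  have hH : Tendsto (fun α : ℝ => A α + Cc α + α * (A α * Cc α) - 2 * B α - α * B α ^ 2)
      (𝓝[>] 0) (𝓝 ((-u) + -1 + 0 * ((-u) * -1) - 2 * (-v) - 0 * (-v) ^ 2)) := by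
    exact (((ha.add hc).add (hα.mul (ha.mul hc))).sub (hb.const_mul 2)).sub (hα.mul (hb.pow 2))
  have hfin := (hG.pow 2).add ((hα.mul (hH.pow 3)).const_mul 4)
  have hval : (-2 * (-u) - 0 * (-u) ^ 2 + 3 * ((-u) + (-v) + -1 +
      0 * ((-u) * (-v) + (-v) * -1 + (-u) * -1) + 0 ^ 2 * (-u) * (-v) * -1)
      - 2 * (3 * (-v) + 3 * 0 * (-v) ^ 2 + 0 ^ 2 * (-v) ^ 3)) ^ 2
      + 4 * (0 * ((-u) + -1 + 0 * ((-u) * -1) - 2 * (-v) - 0 * (-v) ^ 2) ^ 3)
      = (u - 3 * v + 3) ^ 2 := by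
    ring
  rw [hval] at hfin
  have hev := hfin.eventually_const_lt (show 0 < (u - 3 * v + 3) ^ 2 by positivity)
  filter_upwards [hev, self_mem_nhdsWithin] with α h1 h2
  have hα0 : (0:ℝ) < α := h2
  have eA : Real.exp (-(α * u)) = 1 + α * A α := by rw [hA]; field_simp; ring
  have eB : Real.exp (-(α * v)) = 1 + α * B α := by rw [hB]; field_simp; ring
  have eC : Real.exp (-(α * 1)) = 1 + α * Cc α := by rw [hC]; field_simp; ring
  rw [eA, eB, eC]
  have e : (-(1 + α * A α)^2*1 + 3*(1 + α * A α)*(1 + α * B α)*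
      (1 + α * Cc α) - 2*(1 + α * B α)^3)^2
      + 4 * ((1 + α * A α)*(1 + α * Cc α) - (1 + α * B α)^2)^3
      = α ^ 2 * ((-2 * A α - α * A α ^ 2 + 3 * (A α + B α + Cc α +
      α * (A α * B α + B α * Cc α + A α * Cc α) + α ^ 2 * A α * B α * Cc α)
      - 2 * (3 * B α + 3 * α * B α ^ 2 + α ^ 2 * B α ^ 3)) ^ 2
      + 4 * (α * (A α + Cc α + α * (A α * Cc α) - 2 * B α - α * B α ^ 2) ^ 3)) := by
    ring
  rw [e]
  exact mul_pos (by positivity) h1

/-- For every real `p > 2` and all sufficiently small `α > 0`, the operator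
`z^k ↦ exp(-α k^p) z^k` is not zero-sector reducing. -/
theorem result (p : ℝ) (hp : 2 < p) :
    ∃ α₀ : ℝ, 0 < α₀ ∧ ∀ α : ℝ, 0 < α → α < α₀ →
      ¬ ZeroSectorReducing (fun k : ℕ => Real.exp (-(α * (k:ℝ) ^ p))) := by
  have key := key_pos ((3:ℝ) ^ p) ((2:ℝ) ^ p) (third_diff_pos p hp).ne'
  rw [eventually_nhdsWithin_iff, Metric.eventually_nhds_iff] at key
  obtain ⟨α₀, hα₀, hkey⟩ := key
  refine ⟨α₀, hα₀, ?_⟩
  intro α hα hαα₀ hZ
  have hk := hkey (y := α) (by rw [Real.dist_eq, sub_zero, abs_of_pos hα]; exact hαα₀) hα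
  set γ : ℕ → ℝ := fun k : ℕ => Real.exp (-(α * (k:ℝ) ^ p)) with hγ
  have g0 : γ 0 = 1 := by
    rw [hγ]; simp [Real.zero_rpow (by linarith : p ≠ 0)]
  have g1 : γ 1 = Real.exp (-(α * 1)) := by rw [hγ]; simp
  have g2 : γ 2 = Real.exp (-(α * 2 ^ p)) := by rw [hγ]; simp
  have g3 : γ 3 = Real.exp (-(α * 3 ^ p)) := by rw [hγ]; simp
  -- the polynomial (X-1)^3
  set f : ℝ[X] := (X - 1) ^ 3 with hf
  have hf0 : f ≠ 0 := by
    rw [hf]; apply pow_ne_zero
    have := X_sub_C_ne_zero (1:ℝ)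
    simpa using this
  have hfe : f = C 1 * X ^ 3 + C (-3) * X ^ 2 + C 3 * X + C (-1) := by
    rw [hf]; simp only [C_1, C_neg]
    have : (C (3:ℝ)) = (3:ℝ[X]) := map_ofNat C 3
    rw [this]; ring
  have hnat : f.natDegree = 3 := by rw [hfe]; exact natDegree_cubic one_ne_zero
  have hT : diagOp γ f = C (γ 3) * X ^ 3 + C (-3 * γ 2) * X ^ 2 + C (3 * γ 1) * X + C (-γ 0) := by
    unfold diagOp
    rw [hnat]
    have c0 : f.coeff 0 = -1 := by rw [hfe]; simp [coeff_X]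
    have c1 : f.coeff 1 = 3 := by rw [hfe]; simp [coeff_X, coeff_C, coeff_one]
    have c2 : f.coeff 2 = -3 := by rw [hfe]; simp [coeff_X, coeff_C, coeff_one]
    have c3 : f.coeff 3 = 1 := by rw [hfe]; simp [coeff_X, coeff_C, coeff_one]
    simp only [Finset.sum_range_succ, Finset.range_zero, Finset.sum_empty, c0, c1, c2, c3]
    have e1 : γ 0 * -1 = - γ 0 := by ring
    have e2 : γ 1 * 3 = 3 * γ 1 := by ring
    have e3 : γ 2 * -3 = -3 * γ 2 := by ring
    rw [e1, e2, e3, mul_one]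
    ring
  have hzeros : ∀ z : ℂ, aeval z (diagOp γ f) = 0 → z.im = 0 := by
    intro z hz
    by_cases hz0 : z = 0
    · rw [hz0]; simp
    have harg : ∀ θ : ℝ, 0 < θ → θ < Real.pi / 2 → |z.arg| ≤ θ := by
      intro θ h1 h2
      obtain ⟨φ, _, h4, h5⟩ := hZ θ h1 h2
      have h6 := h5 f hf0 (by
        intro w hw
        rw [hf] at hw
        simp only [map_pow, map_sub, aeval_X, map_one] at hw
        have hw1 : w = 1 := by
          have := eq_zero_of_pow_eq_zero hw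
          linear_combination this
        left
        rw [hw1]; simp [h1.le]) z hz
      rcases h6 with h6 | h6
      · linarith
      · exact absurd h6 hz0
    have harg0 : z.arg = 0 := by
      by_contra hne
      have hpos' : 0 < |z.arg| := abs_pos.mpr hne
      have := harg (min (|z.arg| / 2) (Real.pi / 4)) (lt_min (by positivity) (by positivity))
        (lt_of_le_of_lt (min_le_right _ _) (by linarith [Real.pi_pos]))
      have h7 := min_le_left (|z.arg| / 2) (Real.pi / 4)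
      linarith
    exact (Complex.arg_eq_zero_iff.mp harg0).2
  have hdisc := disc_nonpos (γ 3) (γ 2) (γ 1) (γ 0) (by rw [g3]; positivity) (by
    intro z hz
    apply hzeros
    rw [hT]
    simp only [map_add, map_mul, map_pow, aeval_C, aeval_X, Complex.coe_algebraMap]
    push_cast
    linear_combination hz)
  rw [g0, g1, g2, g3] at hdisc
  linarith

end Pool.Agent.Results.MP_f0d684_an.SmallAlphaFails
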